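import Pool.Agent.Q240.Dom.Main

set_option autoImplicit false

/-!
# MP_8cad3b_co: independent domination between the levels `l` and `2`

For every `l ≥ 4` the independent domination number of `G_{l,2}(n)` is at least
`(c_l + ε) * C(n,2)` for all large `n`, where `c_l = (l+3)/((l-1)(l+1))` and `ε > 0` depends on `l`.

Idea of the proof. Let `D` be an independent dominating set and let `H` be the graph of the pairs
which are not in `D`. Then the `l`-sets in `D` are exactly the `l`-cliques of `H` and every edge of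
`H` lies in an `l`-clique. If there are more than `n^2` such cliques, then `D` is large; otherwise
a stability argument (after Füredi) gives a partition into `l - 1` classes, and one counts the edges
of `H` inside the classes.
-/

namespace Pool.Agent.Results.MP_8cad3b_co.IndependentDomination

open Finset Filter Pool.Agent.Q240.Dom

/-- The vertices of `G_{l,2}(n)`: the subsets of an `n`-element set of size `l` or `2`. -/
abbrev Vtx (l n : ℕ) : Type := {A : Finset (Fin n) // A.card = l ∨ A.card = 2}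

/-- The graph `G_{l,2}(n)`: an `l`-set `A` and a `2`-set `B` are adjacent exactly when `B ⊆ A`. -/
def levelGraph (l n : ℕ) : SimpleGraph (Vtx l n) :=
  SimpleGraph.fromRel (fun A B => A.1.card = l ∧ B.1.card = 2 ∧ B.1 ⊆ A.1)

/-- every vertex outside `D` has a neighbour in `D` -/
def IsDominating {V : Type} (G : SimpleGraph V) (D : Finset V) : Prop :=
  ∀ v, v ∉ D → ∃ w ∈ D, G.Adj v w

/-- no two vertices of `D` are adjacent -/
def IsIndependent {V : Type} (G : SimpleGraph V) (D : Finset V) : Prop :=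
  ∀ v ∈ D, ∀ w ∈ D, ¬ G.Adj v w

/-- The independent domination number: the least size of an independent dominating set. -/
noncomputable def indDom {V : Type} (G : SimpleGraph V) : ℕ :=
  sInf {k : ℕ | ∃ D : Finset V, IsDominating G D ∧ IsIndependent G D ∧ D.card = k}

/-- The constant `c_l = (l+3)/((l-1)(l+1))`. -/
noncomputable def cc (l : ℕ) : ℝ := ((l : ℝ) + 3) / (((l : ℝ) - 1) * ((l : ℝ) + 1))

theorem adj_iff {l n : ℕ} (hl : 4 ≤ l) (v w : Vtx l n) :
    (levelGraph l n).Adj v w ↔ (v.1.card = l ∧ w.1.card = 2 ∧ w.1 ⊆ v.1) ∨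
      (w.1.card = l ∧ v.1.card = 2 ∧ v.1 ⊆ w.1) := by
  unfold levelGraph
  rw [SimpleGraph.fromRel_adj]
  constructor
  · exact fun h => h.2
  · intro h
    refine ⟨?_, h⟩
    rintro rfl
    rcases h with h | h
    · omega
    · omega

/-- the set of all pairs is an independent dominating set -/
theorem upper {l n : ℕ} (hl : 4 ≤ l) : ∃ D : Finset (Vtx l n), IsDominating (levelGraph l n) D ∧
    IsIndependent (levelGraph l n) D ∧ D.card ≤ n.choose 2 := by
  classical
  refine ⟨univ.filter (fun v => v.1.card = 2), ?_, ?_, ?_⟩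
  · intro v hv
    have hv2 : v.1.card ≠ 2 := fun h => hv (Finset.mem_filter.2 ⟨Finset.mem_univ _, h⟩)
    have hvl : v.1.card = l := by
      rcases v.2 with h | h
      · exact h
      · exact absurd h hv2
    obtain ⟨B, hB, hBc⟩ := Finset.exists_subset_card_eq (s := v.1) (n := 2) (by omega)
    refine ⟨⟨B, Or.inr hBc⟩, Finset.mem_filter.2 ⟨Finset.mem_univ _, hBc⟩, ?_⟩
    rw [adj_iff hl]
    exact Or.inl ⟨hvl, hBc, hB⟩
  · intro v hv w hw h
    have h1 := (Finset.mem_filter.1 hv).2
    have h2 := (Finset.mem_filter.1 hw).2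
    rw [adj_iff hl] at h
    rcases h with h | h
    · omega
    · omega
  · have h1 : (univ.filter (fun v : Vtx l n => v.1.card = 2)).card ≤
        (Finset.powersetCard 2 (univ : Finset (Fin n))).card := by
      refine Finset.card_le_card_of_injOn (fun v => v.1) ?_ ?_
      · intro v hv
        exact Finset.mem_coe.2 (Finset.mem_powersetCard.2 ⟨Finset.subset_univ _,
          (Finset.mem_filter.1 (Finset.mem_coe.1 hv)).2⟩)
      · intro v _ w _ h
        exact Subtype.ext h
    rwa [Finset.card_powersetCard, Finset.card_univ, Fintype.card_fin] at h1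

theorem indDom_le {l n : ℕ} (hl : 4 ≤ l) : indDom (levelGraph l n) ≤ n.choose 2 := by
  obtain ⟨D, h1, h2, h3⟩ := upper (l := l) (n := n) hl
  have hmem : D.card ∈ {k : ℕ | ∃ D : Finset (Vtx l n), IsDominating (levelGraph l n) D ∧
    IsIndependent (levelGraph l n) D ∧ D.card = k} := ⟨D, h1, h2, rfl⟩
  exact (Nat.sInf_le hmem).trans h3

theorem indDom_mem {l n : ℕ} (hl : 4 ≤ l) : ∃ D : Finset (Vtx l n),
    IsDominating (levelGraph l n) D ∧ IsIndependent (levelGraph l n) D ∧
      D.card = indDom (levelGraph l n) := by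
  obtain ⟨D, h1, h2, h3⟩ := upper (l := l) (n := n) hl
  have hne : ({k : ℕ | ∃ D : Finset (Vtx l n), IsDominating (levelGraph l n) D ∧
    IsIndependent (levelGraph l n) D ∧ D.card = k} : Set ℕ).Nonempty :=
    ⟨D.card, ⟨D, h1, h2, rfl⟩⟩
  exact Nat.sInf_mem hne

/-- the graph of the pairs which are not in `D` -/
def off {l n : ℕ} (D : Finset (Vtx l n)) : SimpleGraph (Fin n) where
  Adj x y := x ≠ y ∧ ∀ v ∈ D, v.1 ≠ {x, y}
  symm := ⟨fun x y h => ⟨h.1.symm, fun v hv => by
    rw [Finset.pair_comm]; exact h.2 v hv⟩⟩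
  loopless := ⟨fun _ h => h.1 rfl⟩

theorem lower {l n : ℕ} (hl : 4 ≤ l) (D : Finset (Vtx l n))
    (hdom : IsDominating (levelGraph l n) D) (hind : IsIndependent (levelGraph l n) D) :
    (∀ x y, (off D).Adj x y → ∃ S ∈ KK (off D) univ l, x ∈ S ∧ y ∈ S) ∧
    (KK (off D) univ l).card + n.choose 2 ≤ D.card + (KK (off D) univ 2).card := by
  classical
  have hclique : ∀ w ∈ D, w.1.card = l → w.1 ∈ KK (off D) univ l := by
    intro w hw hwl
    refine mem_KK.2 ⟨⟨Finset.subset_univ _, hwl⟩, ?_⟩
    intro a ha b hb hab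
    refine ⟨hab, fun v hv hvab => ?_⟩
    refine hind w hw v hv ?_
    rw [adj_iff hl]
    refine Or.inl ⟨hwl, ?_, ?_⟩
    · rw [hvab]; exact Finset.card_pair hab
    · rw [hvab]
      intro x hx
      rcases Finset.mem_insert.1 hx with rfl | hx
      · exact ha
      · rw [Finset.mem_singleton.1 hx]; exact hb
  constructor
  · intro x y hxy
    have hcard : ({x, y} : Finset (Fin n)).card = 2 := Finset.card_pair hxy.1
    have hv : (⟨{x, y}, Or.inr hcard⟩ : Vtx l n) ∉ D := fun h => hxy.2 _ h rfl
    obtain ⟨w, hw, hadj⟩ := hdom _ hv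
    rw [adj_iff hl] at hadj
    rcases hadj with h | h
    · have := h.1
      simp only at this
      omega
    · refine ⟨w.1, hclique w hw h.1, h.2.2 ?_, h.2.2 ?_⟩
      · simp
      · simp
  · -- the two parts of `D`
    have h1 : KK (off D) univ l ∪ (Finset.powersetCard 2 univ \ KK (off D) univ 2) ⊆
        D.image (fun v => v.1) := by
      intro S hS
      rcases Finset.mem_union.1 hS with hS | hS
      · have hS' := mem_KK.1 hS
        by_contra hcon
        have hv : (⟨S, Or.inl hS'.1.2⟩ : Vtx l n) ∉ D := fun h =>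
          hcon (Finset.mem_image.2 ⟨_, h, rfl⟩)
        obtain ⟨w, hw, hadj⟩ := hdom _ hv
        rw [adj_iff hl] at hadj
        rcases hadj with h | h
        · obtain ⟨a, b, hab, hwab⟩ := Finset.card_eq_two.1 h.2.1
          have ha : a ∈ S := h.2.2 (by rw [hwab]; simp)
          have hb : b ∈ S := h.2.2 (by rw [hwab]; simp)
          exact (hS'.2 ha hb hab).2 w hw hwab
        · have h3 := h.2.1
          have h4 := hS'.1.2
          simp only at h3
          omega
      · obtain ⟨hS1, hS2⟩ := Finset.mem_sdiff.1 hS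
        obtain ⟨_, hS3⟩ := Finset.mem_powersetCard.1 hS1
        obtain ⟨a, b, hab, rfl⟩ := Finset.card_eq_two.1 hS3
        by_contra hcon
        refine hS2 (mem_KK.2 ⟨⟨Finset.subset_univ _, hS3⟩, ?_⟩)
        have hadj : (off D).Adj a b := by
          refine ⟨hab, fun v hv hvab => ?_⟩
          exact hcon (Finset.mem_image.2 ⟨v, hv, hvab⟩)
        rw [Finset.coe_pair, SimpleGraph.isClique_pair]
        exact fun _ => hadj
    have hdisj : Disjoint (KK (off D) univ l) (Finset.powersetCard 2 univ \ KK (off D) univ 2) := by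
      rw [Finset.disjoint_left]
      intro S hS1 hS2
      have h2 := (mem_KK.1 hS1).1.2
      have h3 := (Finset.mem_powersetCard.1 (Finset.mem_sdiff.1 hS2).1).2
      omega
    have hsub : KK (off D) univ 2 ⊆ Finset.powersetCard 2 univ := by
      intro S hS
      exact Finset.mem_powersetCard.2 (mem_KK.1 hS).1
    have h2 := (Finset.card_le_card h1).trans Finset.card_image_le
    rw [Finset.card_union_of_disjoint hdisj, Finset.card_sdiff_of_subset hsub,
      Finset.card_powersetCard, Finset.card_univ, Fintype.card_fin] at h2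
    have h3 : (KK (off D) univ 2).card ≤ n.choose 2 := by
      have := Finset.card_le_card hsub
      rwa [Finset.card_powersetCard, Finset.card_univ, Fintype.card_fin] at this
    omega

theorem main (l : ℕ) (hl : 4 ≤ l) : ∃ ε : ℝ, 0 < ε ∧ ∀ᶠ n : ℕ in atTop,
    (cc l + ε) * (n.choose 2 : ℝ) ≤ (indDom (levelGraph l n) : ℝ) := by
  obtain ⟨p, rfl⟩ : ∃ p, l = p + 1 := ⟨l - 1, by omega⟩
  obtain ⟨ε, hε, _, n0, hn0⟩ := core p (by omega)
  refine ⟨ε / 2, by positivity, ?_⟩
  obtain ⟨n1, hn1⟩ := exists_nat_gt (2 / ε)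
  filter_upwards [Filter.eventually_ge_atTop (n0 + n1 + 1)] with n hn
  obtain ⟨D, hdom, hind, hcard⟩ := indDom_mem (l := p + 1) (n := n) hl
  obtain ⟨hG, hlow⟩ := lower hl D hdom hind
  have h1 := hn0 (Fin n) (off D) (by rw [Fintype.card_fin]; omega) hG
  rw [Fintype.card_fin] at h1
  have h2 : EE (off D) = 2 * ((KK (off D) univ 2).card : ℝ) := edges_eq (off D) univ
  have h3 : ((KK (off D) univ (p + 1)).card : ℝ) + (n.choose 2 : ℝ) ≤
      (D.card : ℝ) + ((KK (off D) univ 2).card : ℝ) := by exact_mod_cast hlow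
  have hcc : cc (p + 1) = ((p : ℝ) + 4) / (p * (p + 2)) := by
    unfold cc
    push_cast
    congr 1 <;> ring
  rw [hcc, ← hcard]
  rw [Nat.cast_choose_two] at h3 ⊢
  have hnpos : (0 : ℝ) < n := by exact_mod_cast (by omega : 0 < n)
  have hnε : 2 / ε < (n : ℝ) := by
    refine hn1.trans_le ?_
    exact_mod_cast (by omega : n1 ≤ n)
  have h4 : 2 < (n : ℝ) * ε := by
    rw [div_lt_iff₀ hε] at hnε
    exact hnε
  have hc0 : 0 ≤ ((p : ℝ) + 4) / (p * (p + 2)) := by positivity
  have h5 : 2 * (n : ℝ) ≤ n * ε * n := by nlinarith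
  rw [h2] at h1
  nlinarith [mul_nonneg hc0 hnpos.le, mul_pos hε hnpos]

/-- For every `l ≥ 4` there is `ε > 0` with `i(G_{l,2}(n)) ≥ (c_l + ε) * C(n,2)` for all large `n`,
and equivalently the limit inferior of `i(G_{l,2}(n)) / C(n,2)` is larger than `c_l`. -/
theorem result (l : ℕ) (hl : 4 ≤ l) :
    (∃ ε : ℝ, 0 < ε ∧ ∀ᶠ n : ℕ in atTop,
      (cc l + ε) * (n.choose 2 : ℝ) ≤ (indDom (levelGraph l n) : ℝ)) ∧
    cc l < liminf (fun n : ℕ => (indDom (levelGraph l n) : ℝ) / (n.choose 2 : ℝ)) atTop := by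
  obtain ⟨ε, hε, h⟩ := main l hl
  refine ⟨⟨ε, hε, h⟩, ?_⟩
  refine lt_of_lt_of_le (lt_add_of_pos_right (cc l) hε) ?_
  refine Filter.le_liminf_of_le ?_ ?_
  · refine Filter.IsBoundedUnder.isCoboundedUnder_ge ?_
    refine ⟨1, ?_⟩
    rw [Filter.eventually_map]
    refine Filter.Eventually.of_forall fun n => ?_
    refine div_le_one_of_le₀ ?_ (Nat.cast_nonneg _)
    exact_mod_cast indDom_le hl
  · filter_upwards [h, Filter.eventually_ge_atTop 2] with n hn hn2
    have hpos : (0 : ℝ) < (n.choose 2 : ℝ) := by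
      exact_mod_cast Nat.choose_pos hn2
    rw [le_div_iff₀ hpos]
    exact hn

end Pool.Agent.Results.MP_8cad3b_co.IndependentDomination
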